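import Mathlib

/-!
# Numbers of Fermat type: definitions
-/

set_option autoImplicit false

namespace Pool.Agent.U231.FF

/-- The degree over `ℚ` of the intersection of `ℚ(β)` with the field of the roots of unity of
order `N`. -/
noncomputable def commonDegree (N : ℕ) (β : ℂ) : ℕ :=
  Module.finrank ℚ ↥(IntermediateField.adjoin ℚ {β} ⊓
    IntermediateField.adjoin ℚ {Complex.exp (2 * Real.pi * Complex.I / N)})

/-- The sum of the multisets `p ^ j a` for `0 ≤ j < f`, where `f` is the order of `p` modulo `N`. For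
`p ≡ 1` modulo `N` this is `a`. -/
noncomputable def frobeniusSum (p : ℕ) {N : ℕ} (a : Multiset (ZMod N)) : Multiset (ZMod N) :=
  (Multiset.range (orderOf (p : ZMod N))).bind fun j => a.map fun x => (p : ZMod N) ^ j * x

/-- `α` is, up to a root of unity and a power of `q = |κ|`, a product of Gauss sums of the
characters `θ ^ x`, `x ∈ a`, of `κ`, where `θ` is a character of order `N` and `a` a multiset of at
most `s` nonzero residues modulo `N` such that `frobeniusSum p a` is not symmetric. -/
def IsFermatNumber (κ : Type) [Field κ] [Fintype κ] (p N s : ℕ) (α : ℂ) : Prop :=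
  ∃ (θ : MulChar κ ℂ) (ψ : AddChar κ ℂ) (a : Multiset (ZMod N)) (e i j : ℕ),
    orderOf θ = N ∧ ψ ≠ 1 ∧ (0 : ZMod N) ∉ a ∧ Multiset.card a ≤ s ∧
    (frobeniusSum p a).map Neg.neg ≠ frobeniusSum p a ∧ 0 < e ∧
    (α * (Fintype.card κ : ℂ) ^ i) ^ e =
      ((Fintype.card κ : ℂ) ^ j * (a.map fun x => gaussSum (θ ^ x.val) ψ).prod) ^ e

/-- The space `H` is generated by the subspace `P` (the classes of algebraic cycles) and a subspace `T`
which is stable under `Φ` (the Frobenius), such that the images under `τ` of the eigenvalues of `Φ` on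
`T` are Fermat numbers. -/
def IsFermatCohomology (κ : Type) [Field κ] [Fintype κ] (p N s : ℕ) {K H : Type} [Field K]
    [AddCommGroup H] [Module K H] (P : Submodule K H) (Φ : Module.End K H) (τ : K →+* ℂ) : Prop :=
  ∃ (T : Submodule K H) (hT : ∀ t ∈ T, Φ t ∈ T), P ⊔ T = ⊤ ∧
    ∀ α, Module.End.HasEigenvalue (Φ.restrict hT) α → IsFermatNumber κ p N s (τ α)

/-- The images of the eigenvalues of `Φ` under the embedding `τ` of the coefficient field. -/
def eigenvalues {K H : Type} [Field K] [AddCommGroup H] [Module K H] (Φ : Module.End K H)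
    (τ : K →+* ℂ) : Set ℂ :=
  {b | ∃ β : K, Φ.HasEigenvalue β ∧ τ β = b}

/-- The degree `d` of a subfield of `ℚ(ζ_N)`, where `N` is a prime number, is small compared with `S`:
the subfield is real, which means that `(N - 1) / d` is even (for instance if `d = 1`), or
`S d < N - 1`; or `N = 2`. -/
def IsSmallDegree (N S d : ℕ) : Prop := N = 2 ∨ Even ((N - 1) / d) ∨ S * d + 1 < N

/-- The numbers in `B` are algebraic, and for all `β` in `B` and all `i` there is an `m > 0` such that
the degree of `ℚ(β ^ m) ∩ ℚ(ζ_(N_i))` is small compared with `s_i f_i`, where `f_i` is the order of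
`p` modulo `N_i`. For instance, this is so if `N_i` is unramified in the field `ℚ(β ^ m)`. -/
def IsSmallBase (p : ℕ) {ι : Type} (N s : ι → ℕ) (B : Set ℂ) : Prop :=
  ∀ β ∈ B, IsAlgebraic ℚ β ∧ ∀ i, ∃ m : ℕ, 0 < m ∧
    IsSmallDegree (N i) (s i * orderOf (p : ZMod (N i))) (commonDegree (N i) (β ^ m))

end Pool.Agent.U231.FF
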