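import Pool.Agent.U231.FF.Norm

/-!
# Relations between products of Gauss sums and algebraic numbers
-/

set_option autoImplicit false
set_option linter.unusedSectionVars false

namespace Pool.Agent.U231.FF

open Finset Pool.Agent.Y145.DI Pool.Agent.N214.HB Pool.Agent.H916R2 Pool.Agent.U231.FT

theorem autToPow_eq_of {N : ℕ} [NeZero N] {ζ : Qb} (hζ : IsPrimitiveRoot ζ N)
    {τ : Qb ≃ₐ[ℚ] Qb} {u : ℕ} (h : τ ζ = ζ ^ u) : ((hζ.autToPow ℚ τ : (ZMod N)ˣ) : ZMod N) = u := by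
  have h1 := hζ.autToPow_spec ℚ τ
  have h2 : ζ ^ u = ζ ^ (u % N) := by
    conv_lhs => rw [← Nat.div_add_mod u N]
    rw [pow_add, pow_mul, hζ.pow_eq_one, one_pow, one_mul]
  have h3 := hζ.pow_inj (ZMod.val_lt _) (Nat.mod_lt _ (Nat.pos_of_ne_zero (NeZero.ne N)))
    (h1.trans (h.trans h2))
  apply ZMod.val_injective
  rw [h3, ZMod.val_natCast]

/-- an automorphism which is the identity on one cyclotomic field and the complex conjugation on
the others -/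
theorem exists_eps {ι : Type} [Fintype ι] [DecidableEq ι] {N : ι → ℕ} [∀ i, NeZero (N i)]
    (hprime : ∀ i, (N i).Prime) (hne : Function.Injective N) {ζ : ι → Qb}
    (hζ : ∀ i, IsPrimitiveRoot (ζ i) (N i)) (i₀ : ι) :
    ∃ ε : Qb ≃ₐ[ℚ] Qb, (hζ i₀).autToPow ℚ ε = 1 ∧
      ∀ i, i ≠ i₀ → (hζ i).autToPow ℚ ε = -1 := by
  set M' := ∏ i ∈ univ.erase i₀, N i with hM'
  have hM'0 : 0 < M' := prod_pos fun i _ => (hprime i).pos
  have hco : (N i₀).Coprime M' := by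
    apply Nat.Coprime.prod_right
    intro i hi
    exact (Nat.coprime_primes (hprime _) (hprime _)).2 fun h => (ne_of_mem_erase hi) (hne h).symm
  set M := N i₀ * M' with hM
  have hM0 : 0 < M := Nat.mul_pos (hprime _).pos hM'0
  have : NeZero M := ⟨hM0.ne'⟩
  obtain ⟨ξ, hξ⟩ : ∃ ξ : Qb, IsPrimitiveRoot ξ M := by
    obtain ⟨ξ, hξ⟩ := IsAlgClosed.exists_root (Polynomial.cyclotomic M Qb) (by
      rw [Polynomial.degree_cyclotomic]
      exact_mod_cast (Nat.totient_pos.2 hM0).ne')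
    exact ⟨ξ, (Polynomial.isRoot_cyclotomic_iff).1 hξ⟩
  obtain ⟨u, hu1, hu2⟩ := Nat.chineseRemainder hco 1 (M' - 1)
  have hdvd : ∀ i, N i ∣ M := by
    intro i
    by_cases hi : i = i₀
    · rw [hi]
      exact Dvd.intro _ rfl
    · exact (dvd_prod_of_mem _ (mem_erase.2 ⟨hi, mem_univ i⟩)).trans (Dvd.intro_left _ rfl)
  have hu2' : M' ∣ u + 1 := by
    have h1 : u + 1 ≡ (M' - 1) + 1 [MOD M'] := Nat.ModEq.add_right 1 hu2
    rw [Nat.sub_add_cancel hM'0] at h1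
    exact (Nat.modEq_zero_iff_dvd).1 (h1.trans ((Nat.modEq_zero_iff_dvd).2 dvd_rfl))
  have huco : u.Coprime M := by
    apply Nat.Coprime.mul_right
    · have h1 := hu1.gcd_eq
      rw [Nat.gcd_one_left] at h1
      exact h1
    · have h1 : u.Coprime (u + 1) := by simp
      exact h1.coprime_dvd_right hu2'
  obtain ⟨ε, hε⟩ := autToPow_surjective hξ (ZMod.unitOfCoprime u huco)
  have hεξ : ε ξ = ξ ^ u := by
    have h1 := hξ.autToPow_spec ℚ ε
    rw [hε, ZMod.coe_unitOfCoprime, ZMod.val_natCast] at h1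
    rw [← h1]
    conv_rhs => rw [← Nat.div_add_mod u M]
    rw [pow_add, pow_mul, hξ.pow_eq_one, one_pow, one_mul]
  have hεζ : ∀ i, ε (ζ i) = ζ i ^ u := by
    intro i
    obtain ⟨k, _, hk⟩ := hξ.eq_pow_of_pow_eq_one (ξ := ζ i) (by
      obtain ⟨c, hc⟩ := hdvd i
      rw [hc, pow_mul, (hζ i).pow_eq_one, one_pow])
    rw [← hk, map_pow, hεξ, ← pow_mul, ← pow_mul, mul_comm]
  refine ⟨ε, ?_, fun i hi => ?_⟩
  · apply Units.ext
    rw [autToPow_eq_of _ (hεζ i₀), Units.val_one]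
    have h1 := (ZMod.natCast_eq_natCast_iff u 1 (N i₀)).2 hu1
    rwa [Nat.cast_one] at h1
  · apply Units.ext
    rw [autToPow_eq_of _ (hεζ i), Units.val_neg, Units.val_one]
    have h1 : N i ∣ u + 1 := (dvd_prod_of_mem _ (mem_erase.2 ⟨hi, mem_univ i⟩)).trans hu2'
    have h2 := (ZMod.natCast_eq_zero_iff (u + 1) (N i)).2 h1
    push_cast at h2
    exact eq_neg_of_add_eq_zero_left h2

section

variable {κ : Type} [Field κ] [Fintype κ] {p : ℕ} [Fact p.Prime] [CharP κ p]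

/-- the product of the Gauss sums -/
noncomputable def gam {N : ℕ} (θ : MulChar κ ℂ) (ψ : AddChar κ ℂ) (s : Multiset (ZMod N)) : Qb :=
  (s.map fun a => gaussSum (liftChi (θ ^ a.val)) (liftPsi ψ)).prod

theorem coe_gam {N : ℕ} (θ : MulChar κ ℂ) (ψ : AddChar κ ℂ) (s : Multiset (ZMod N)) :
    ((gam θ ψ s : Qb) : ℂ) = (s.map fun a => gaussSum (θ ^ a.val) ψ).prod := by
  have h1 : ((gam θ ψ s : Qb) : ℂ) = (algebraMap Qb ℂ) (gam θ ψ s) := rfl
  rw [h1, gam, map_multiset_prod, Multiset.map_map]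
  congr 1
  exact Multiset.map_congr rfl fun a _ => coe_gauss _ _

theorem core_wt {F : ℕ} (hcard : Fintype.card κ = p ^ F) {ι : Type} [Fintype ι] [DecidableEq ι]
    {N : ι → ℕ} [∀ i, NeZero (N i)] (hprime : ∀ i, (N i).Prime) (hne : Function.Injective N)
    {θ : ι → MulChar κ ℂ} (hθ : ∀ i, orderOf (θ i) = N i) {g : κˣ}
    (hg : ∀ x : κˣ, x ∈ Subgroup.zpowers g) {ψ : ι → AddChar κ ℂ} (hψ : ∀ i, ψ i ≠ 1)
    {s : ∀ i, Multiset (ZMod (N i))} (hs : ∀ i, (0 : ZMod (N i)) ∉ s i) {b : Qb}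
    (hrel : ∀ σ : Qb →+* PadicAlgCl p, ∃ C : ℝ, C ≠ 0 ∧ ∀ τ : Qb ≃ₐ[ℚ] Qb,
      (∏ i, ‖σ (τ (gam (θ i) (ψ i) (s i)))‖) * ‖σ (τ b)‖ = C)
    {m : ℕ} (hm : 0 < m) {τ₀ : Qb ≃ₐ[ℚ] Qb} (hτ₀ : τ₀ (b ^ m) = b ^ m) (i₀ : ι)
    (x : (ZMod (N i₀))ˣ) :
    wt p F (s i₀) ((x * (root_chi (hθ i₀) hg).autToPow ℚ τ₀ : (ZMod (N i₀))ˣ) : ZMod (N i₀)) =
      wt p F (s i₀) (x : ZMod (N i₀)) := by
  have hcop : ∀ i, p.Coprime (N i) := by
    intro i
    rw [Nat.Prime.coprime_iff_not_dvd (Fact.out : p.Prime)]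
    intro h1
    have hQ1 : 1 < Fintype.card κ := Fintype.one_lt_card
    have h2 : p ∣ Fintype.card κ - 1 := h1.trans (by rw [← hθ i]; exact (θ i).orderOf_dvd_card_sub_one)
    have hF : F ≠ 0 := by
      rintro rfl
      rw [pow_zero] at hcard
      omega
    have h3 : p ∣ Fintype.card κ := by
      rw [hcard]
      exact dvd_pow_self p hF
    have h10 : p ∣ 1 := (Nat.dvd_sub_iff_right hQ1.le h3).1 h2
    exact (Fact.out : p.Prime).one_lt.ne' (Nat.dvd_one.1 h10)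
  obtain ⟨σ⟩ : Nonempty (Qb →+* PadicAlgCl p) :=
    ⟨(IsAlgClosed.lift : Qb →ₐ[ℚ] PadicAlgCl p).toRingHom⟩
  obtain ⟨hp0, hp1⟩ := norm_p_lt (p := p)
  choose v hv using fun i => exists_type_prod hcard σ (hθ i) hg (hψ i) (s i) (hs i)
  obtain ⟨ε, hε0, hε1⟩ := exists_eps hprime hne (fun i => root_chi (hθ i) hg) i₀
  obtain ⟨C, hC0, hC⟩ := hrel σ
  set t : ∀ i, (Qb ≃ₐ[ℚ] Qb) →* (ZMod (N i))ˣ := fun i => (root_chi (hθ i) hg).autToPow ℚ with ht
  let n : ι → (Qb ≃ₐ[ℚ] Qb) → ℝ := fun i τ => ‖σ (τ (gam (θ i) (ψ i) (s i)))‖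
  have hn0 : ∀ i τ, 0 ≤ n i τ := fun i τ => norm_nonneg _
  have hn : ∀ i τ, n i τ ^ N i = ‖((p : ℕ) : PadicAlgCl p)‖ ^
      wt p F (s i) ((v i * t i τ : (ZMod (N i))ˣ) : ZMod (N i)) := fun i τ => hv i τ
  have hnpos : ∀ i τ, 0 < n i τ := by
    intro i τ
    refine lt_of_le_of_ne (hn0 i τ) fun h => ?_
    have h1 := hn i τ
    rw [← h, zero_pow (hprime i).pos.ne'] at h1
    exact (pow_pos hp0 _).ne h1
  -- invariance of the product
  have hb : ∀ τ : Qb ≃ₐ[ℚ] Qb, ‖σ (τ b)‖ ≠ 0 := by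
    intro τ h
    have h1 := hC τ
    rw [h, mul_zero] at h1
    exact hC0 h1.symm
  have hbτ : ∀ τ : Qb ≃ₐ[ℚ] Qb, ‖σ ((τ * τ₀) b)‖ = ‖σ (τ b)‖ := by
    intro τ
    refine (pow_left_inj₀ (norm_nonneg _) (norm_nonneg _) hm.ne').1 ?_
    rw [← norm_pow, ← norm_pow, ← map_pow, ← map_pow, ← map_pow, ← map_pow, AlgEquiv.mul_apply,
      hτ₀]
  have hprod : ∀ τ : Qb ≃ₐ[ℚ] Qb, ∏ i, n i (τ * τ₀) = ∏ i, n i τ := by
    intro τ
    have h1 := (hC (τ * τ₀)).trans (hC τ).symm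
    rw [hbτ] at h1
    exact mul_right_cancel₀ (hb τ) h1
  -- the pairs
  have hpair : ∀ i, i ≠ i₀ → ∀ τ τ' : Qb ≃ₐ[ℚ] Qb,
      n i τ * n i (ε * τ) = n i τ' * n i (ε * τ') := by
    intro i hi τ τ'
    refine (pow_left_inj₀ (mul_nonneg (hn0 _ _) (hn0 _ _)) (mul_nonneg (hn0 _ _) (hn0 _ _))
      (hprime i).pos.ne').1 ?_
    have h1 : ∀ τ : Qb ≃ₐ[ℚ] Qb, (n i τ * n i (ε * τ)) ^ N i =
        ‖((p : ℕ) : PadicAlgCl p)‖ ^ (Multiset.card (s i) * (F * N i)) := by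
      intro τ
      rw [mul_pow, hn, hn, ← pow_add]
      congr 1
      have h2 : ((v i * t i (ε * τ) : (ZMod (N i))ˣ) : ZMod (N i)) =
          -((v i * t i τ : (ZMod (N i))ˣ) : ZMod (N i)) := by
        rw [map_mul]
        have h3 : t i ε = -1 := hε1 i hi
        rw [h3]
        push_cast
        ring
      rw [h2]
      exact wt_add_neg (hcop i) (s i) (hs i) _
    rw [h1, h1]
  have hsame : ∀ τ : Qb ≃ₐ[ℚ] Qb, n i₀ (ε * τ) = n i₀ τ := by
    intro τ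
    refine (pow_left_inj₀ (hn0 _ _) (hn0 _ _) (hprime i₀).pos.ne').1 ?_
    rw [hn, hn, map_mul]
    have h3 : t i₀ ε = 1 := hε0
    rw [h3, one_mul]
  have hkey : ∀ τ : Qb ≃ₐ[ℚ] Qb, (∏ i, n i τ) * ∏ i, n i (ε * τ) =
      n i₀ τ ^ 2 * ∏ i ∈ univ.erase i₀, (n i τ * n i (ε * τ)) := by
    intro τ
    rw [← prod_mul_distrib, ← mul_prod_erase univ _ (mem_univ i₀), hsame τ, sq]
  have hinv : ∀ τ : Qb ≃ₐ[ℚ] Qb, n i₀ (τ * τ₀) = n i₀ τ := by
    intro τ
    have h1 := hkey (τ * τ₀)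
    rw [← mul_assoc ε τ τ₀, hprod, hprod, hkey τ, mul_assoc ε τ τ₀] at h1
    have h2 : ∏ i ∈ univ.erase i₀, (n i (τ * τ₀) * n i (ε * (τ * τ₀))) =
        ∏ i ∈ univ.erase i₀, (n i τ * n i (ε * τ)) :=
      prod_congr rfl fun i hi => hpair i (ne_of_mem_erase hi) _ _
    rw [h2] at h1
    have h3 : (∏ i ∈ univ.erase i₀, (n i τ * n i (ε * τ))) ≠ 0 :=
      prod_ne_zero_iff.2 fun i _ => (mul_pos (hnpos _ _) (hnpos _ _)).ne'
    have h4 := mul_right_cancel₀ h3 h1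
    exact ((pow_left_inj₀ (hn0 _ _) (hn0 _ _) two_ne_zero).1 h4).symm
  obtain ⟨τ, hτ⟩ := autToPow_surjective (root_chi (hθ i₀) hg) ((v i₀)⁻¹ * x)
  have h1 := hn i₀ (τ * τ₀)
  rw [hinv τ, hn i₀ τ] at h1
  have h2 := pow_right_injective₀ hp0 hp1.ne h1
  rw [map_mul] at h2
  have h3 : v i₀ * t i₀ τ = x := by
    have h4 : t i₀ τ = (v i₀)⁻¹ * x := hτ
    rw [h4, mul_inv_cancel_left]
  rw [← mul_assoc, h3] at h2
  exact h2.symm

end

/-- the weight and the sawtooth functions -/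
theorem wt_saw {p N : ℕ} [NeZero N] (hcop : p.Coprime N) {n : ℕ} (s : Multiset (ZMod N))
    (hs : (0 : ZMod N) ∉ s) (x : (ZMod N)ˣ) :
    (2 * wt p (n * orderOf (p : ZMod N)) s (x : ZMod N) : ℤ) =
      n * (sawSum (frobeniusSum p s) (x : ZMod N) +
        N * (orderOf (p : ZMod N) * Multiset.card s)) := by
  have h1 : ∀ a : ZMod N, a ∈ s → (2 * expo p N (n * orderOf (p : ZMod N)) ((x : ZMod N) * a).val : ℤ)
      = n * ∑ j ∈ range (orderOf (p : ZMod N)), (saw ((x : ZMod N) * ((p : ZMod N) ^ j * a)) + N) := by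
    intro a ha
    have ha0 : a ≠ 0 := fun h => hs (h ▸ ha)
    have h2 : expo p N (n * orderOf (p : ZMod N)) ((x : ZMod N) * a).val =
        ∑ j ∈ range (n * orderOf (p : ZMod N)), ((x : ZMod N) * ((p : ZMod N) ^ j * a)).val := by
      unfold expo
      refine sum_congr rfl fun j _ => ?_
      rw [← ZMod.val_natCast]
      congr 1
      push_cast
      rw [ZMod.natCast_zmod_val]
      ring
    rw [h2, sum_periodic (f := orderOf (p : ZMod N))
      (fun j => ((x : ZMod N) * ((p : ZMod N) ^ j * a)).val)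
      (fun j => by simp only [pow_add, pow_orderOf_eq_one, mul_one]) n]
    push_cast
    rw [mul_left_comm, mul_sum]
    congr 1
    refine sum_congr rfl fun j _ => ?_
    have h3 : (x : ZMod N) * ((p : ZMod N) ^ j * a) ≠ 0 := by
      intro h4
      have h5 : IsUnit ((p : ZMod N) ^ j) := ((ZMod.isUnit_iff_coprime p N).2 hcop).pow j
      exact ha0 (h5.mul_right_eq_zero.1 ((Units.mul_right_eq_zero x).1 h4))
    rw [saw, if_neg h3]
    ring
  have h2 : sawSum (frobeniusSum p s) (x : ZMod N) =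
      ∑ j ∈ range (orderOf (p : ZMod N)),
        (s.map fun a => saw ((x : ZMod N) * ((p : ZMod N) ^ j * a))).sum := by
    unfold sawSum frobeniusSum
    rw [Multiset.map_bind, Multiset.sum_bind]
    change _ = (Multiset.map _ (Multiset.range _)).sum
    congr 1
    refine Multiset.map_congr rfl fun j _ => ?_
    rw [Multiset.map_map]
    rfl
  rw [h2, wt]
  clear h2
  induction s using Multiset.induction_on with
  | empty => simp
  | cons a s ih =>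
    rw [Multiset.mem_cons, not_or] at hs
    have h3 := ih hs.2 fun b hb => h1 b (Multiset.mem_cons_of_mem hb)
    have h4 := h1 a (Multiset.mem_cons_self a s)
    simp only [Multiset.map_cons, Multiset.sum_cons, Multiset.card_cons, sum_add_distrib,
      sum_const, card_range, nsmul_eq_mul] at h3 h4 ⊢
    push_cast at h3 h4 ⊢
    linarith

theorem card_frobeniusSum (p : ℕ) {N : ℕ} (s : Multiset (ZMod N)) :
    Multiset.card (frobeniusSum p s) = orderOf (p : ZMod N) * Multiset.card s := by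
  unfold frobeniusSum
  rw [Multiset.card_bind]
  simp

end Pool.Agent.U231.FF
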