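import Pool.Agent.U231.FF.Com
import Pool.Agent.TH125.Gal.Lef
import Pool.Agent.TH132.A.Hodge

/-!
# Varieties of Fermat type over finite fields and their products with arbitrary varieties: definitions
-/

set_option autoImplicit false

open CategoryTheory AlgebraicGeometry

universe u

namespace Pool.Agent.U231.FF

open Pool.Agent.H914 Pool.Agent.H914.VarClass Pool.Agent.H914.VarClass.Obj
  Pool.Agent.H914.WeilCohomology Pool.Agent.H281R3.HT Pool.Agent.TH125.Gal

variable {k : Type u} [Field k] {𝒱 : VarClass k} {ops : CycleOps 𝒱}
  {W : WeilCohomology.{u, 0} ops} {Γ : Type} [Group Γ]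

/-- The action of the element `σ` on the cohomology of `A` as a linear map. -/
def frobenius (A : GVar W Γ) (σ : Γ) : Module.End W.K (W.H A.X) := (A.act σ).toLinearMap

/-- `A` is of Fermat type of degree `N` and length at most `s`: the cohomology of `A` is generated by
the classes of algebraic cycles and a subspace, stable under `σ`, such that the images under `τ`
of the eigenvalues of `σ` on it are Fermat numbers. -/
def IsFermatType (κ : Type) [Field κ] [Fintype κ] (p N s : ℕ) (A : GVar W Γ) (σ : Γ)
    (τ : W.K →+* ℂ) : Prop :=
  IsFermatCohomology κ p N s (algSpan W A.X) (frobenius A σ) τ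

/-- `Z` and the `X i` are members of a class `G` of varieties with an action of the group `Γ` on the
cohomology with the properties of a Galois action, `G` is closed under products, the element `σ`
(the Frobenius) acts as `q = |κ|` on the Tate twist, the `X i` are of Fermat type of different prime
degrees `N i`, their cohomology is not zero, and the images of the eigenvalues of `σ` on the cohomology of `Z` satisfy `IsSmallBase`. -/
structure IsFermatSystem (κ : Type) [Field κ] [Fintype κ] {ι : Type} (p : ℕ) (N s : ι → ℕ)
    (χ : Γ →* W.Kˣ) (G : Set (GVar W Γ)) (X : ι → GVar W Γ) (Z : GVar W Γ) (σ : Γ)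
    (τ : W.K →+* ℂ) : Prop where
  galois : GaloisClass χ G
  mem : ∀ i, X i ∈ G
  mem_base : Z ∈ G
  cyclotomic : ((χ σ : W.Kˣ) : W.K) = (Fintype.card κ : W.K)
  prime : ∀ i, (N i).Prime
  different : ∀ i i', i ≠ i' → N i ≠ N i'
  fermat : ∀ i, IsFermatType κ p (N i) (s i) (X i) σ τ
  ne_zero : ∀ i, (1 : W.H (X i).X) ≠ 0
  base : IsSmallBase p N s (eigenvalues (frobenius Z σ) τ)

/-- The product `X i₁ × (X i₂ × (⋯ × Z))` with the sum of the pull-backs of the divisors `D i` and
`E`. -/
noncomputable def productOf {ι : Type} (X : ι → GVar W Γ) (D : ∀ i, (X i).X.Cycles)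
    (Z : Polarized 𝒱) : List ι → Polarized 𝒱
  | [] => Z
  | i :: L => (⟨(X i).X, D i⟩ : Polarized 𝒱).prod ops (productOf X D Z L)

end Pool.Agent.U231.FF
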