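import Pool.Agent.U231.FF.Com

/-!
# Automorphisms of the field of algebraic numbers and cyclotomic fields
-/

set_option autoImplicit false

open IntermediateField Polynomial

namespace Pool.Agent.U231.FF

/-- the field of algebraic numbers -/
abbrev Qb : Type := algebraicClosure ℚ ℂ

instance closureQb : IsAlgClosure ℚ Qb := algebraicClosure.isAlgClosure ℚ ℂ

instance closedQb : IsAlgClosed Qb := IsAlgClosure.isAlgClosed ℚ

instance algQb : Algebra.IsAlgebraic ℚ Qb := algebraicClosure.isAlgebraic ℚ ℂ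

instance galoisQb : IsGalois ℚ Qb := IsAlgClosure.isGalois ℚ Qb

theorem mem_ker_iff {N : ℕ} [NeZero N] {ζ : Qb} (hζ : IsPrimitiveRoot ζ N)
    (σ : Qb ≃ₐ[ℚ] Qb) : hζ.autToPow ℚ σ = 1 ↔ σ ζ = ζ := by
  have h1 := hζ.autToPow_spec ℚ σ
  constructor
  · intro h
    rw [← h1, h, Units.val_one, ZMod.val_one_eq_one_mod]
    rw [hζ.eq_orderOf, pow_mod_orderOf, pow_one]
  · intro h
    rw [h] at h1
    have h2 : ζ ^ (1 % N) = ζ := by
      rw [hζ.eq_orderOf, pow_mod_orderOf, pow_one]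
    have h3 := hζ.pow_inj (ZMod.val_lt _) (Nat.mod_lt _ (Nat.pos_of_ne_zero (NeZero.ne N)))
      (h1.trans h2.symm)
    apply Units.ext
    apply ZMod.val_injective
    rw [Units.val_one, ZMod.val_one_eq_one_mod]
    exact h3

theorem autToPow_surjective {N : ℕ} [NeZero N] {ζ : Qb} (hζ : IsPrimitiveRoot ζ N) :
    Function.Surjective (hζ.autToPow ℚ : (Qb ≃ₐ[ℚ] Qb) →* (ZMod N)ˣ) := by
  intro x
  have hN : 0 < N := Nat.pos_of_ne_zero (NeZero.ne N)
  have h1 : IsConjRoot ℚ (ζ ^ (x : ZMod N).val) ζ := by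
    show minpoly ℚ _ = minpoly ℚ _
    rw [← cyclotomic_eq_minpoly_rat hζ hN,
      ← cyclotomic_eq_minpoly_rat (hζ.pow_of_coprime _ (ZMod.val_coe_unit_coprime x)) hN]
  obtain ⟨σ, hσ⟩ := isConjRoot_iff_exists_algEquiv.1 h1
  refine ⟨σ, ?_⟩
  have h2 := hζ.autToPow_spec ℚ σ
  rw [hσ] at h2
  exact Units.ext (ZMod.val_injective _ (hζ.pow_inj (ZMod.val_lt _) (ZMod.val_lt _) h2))

theorem ker_eq {N : ℕ} [NeZero N] {ζ : Qb} (hζ : IsPrimitiveRoot ζ N) :
    (hζ.autToPow ℚ : (Qb ≃ₐ[ℚ] Qb) →* (ZMod N)ˣ).ker = ℚ⟮ζ⟯.fixingSubgroup := by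
  ext σ
  rw [MonoidHom.mem_ker, mem_ker_iff hζ, IntermediateField.mem_fixingSubgroup_iff]
  constructor
  · intro h x hx
    have h1 : ℚ⟮ζ⟯ ≤ IntermediateField.fixedField (Subgroup.zpowers σ) := by
      rw [IntermediateField.adjoin_simple_le_iff, IntermediateField.mem_fixedField_iff]
      intro f hf
      obtain ⟨n, rfl⟩ := Subgroup.mem_zpowers_iff.1 hf
      have h2 : σ ∈ MulAction.stabilizer (Qb ≃ₐ[ℚ] Qb) ζ := h
      exact (MulAction.stabilizer (Qb ≃ₐ[ℚ] Qb) ζ).zpow_mem h2 n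
    exact (IntermediateField.mem_fixedField_iff _ _).1 (h1 hx) σ (Subgroup.mem_zpowers σ)
  · intro h
    exact h ζ (IntermediateField.mem_adjoin_simple_self ℚ ζ)

/-- **The index of the image of the stabilizer in the Galois group of the cyclotomic field.** -/
theorem index_eq {N : ℕ} [NeZero N] {ζ : Qb} (hζ : IsPrimitiveRoot ζ N) (b : Qb) :
    ((ℚ⟮b⟯.fixingSubgroup).map (hζ.autToPow ℚ : (Qb ≃ₐ[ℚ] Qb) →* (ZMod N)ˣ)).index =
      commonDegree N (b : ℂ) := by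
  have hN : 0 < N := Nat.pos_of_ne_zero (NeZero.ne N)
  set U := ℚ⟮b⟯.fixingSubgroup
  set V := ℚ⟮ζ⟯.fixingSubgroup
  have h1 : (U.map (hζ.autToPow ℚ : (Qb ≃ₐ[ℚ] Qb) →* (ZMod N)ˣ)).index = (U ⊔ V).index := by
    rw [Subgroup.index_map, MonoidHom.range_eq_top.2 (autToPow_surjective hζ), Subgroup.index_top,
      mul_one, ker_eq hζ]
  have hfin : FiniteDimensional ℚ ℚ⟮ζ⟯ :=
    IntermediateField.adjoin.finiteDimensional (algQb.isAlgebraic ζ).isIntegral
  have hopen : IsOpen ((U ⊔ V : Subgroup (Qb ≃ₐ[ℚ] Qb)) : Set (Qb ≃ₐ[ℚ] Qb)) :=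
    Subgroup.isOpen_mono le_sup_right (IntermediateField.fixingSubgroup_isOpen ℚ⟮ζ⟯)
  have hclosed : IsClosed ((U ⊔ V : Subgroup (Qb ≃ₐ[ℚ] Qb)) : Set (Qb ≃ₐ[ℚ] Qb)) :=
    Subgroup.isClosed_of_isOpen _ hopen
  have h2 : (IntermediateField.fixedField (U ⊔ V)).fixingSubgroup = U ⊔ V :=
    InfiniteGalois.fixingSubgroup_fixedField ⟨U ⊔ V, hclosed⟩
  have h3 : IntermediateField.fixedField (U ⊔ V) = ℚ⟮b⟯ ⊓ ℚ⟮ζ⟯ := by
    conv_rhs => rw [← InfiniteGalois.fixedField_fixingSubgroup ℚ⟮b⟯,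
      ← InfiniteGalois.fixedField_fixingSubgroup ℚ⟮ζ⟯]
    apply le_antisymm
    · exact le_inf (IntermediateField.fixedField_le le_sup_left)
        (IntermediateField.fixedField_le le_sup_right)
    · rw [IntermediateField.le_iff_le]
      refine sup_le ?_ ?_
      · rw [← IntermediateField.le_iff_le]
        exact inf_le_left
      · rw [← IntermediateField.le_iff_le]
        exact inf_le_right
  rw [h1, ← h2, ← IntermediateField.finrank_eq_fixingSubgroup_index, h3, commonDegree]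
  let ν : Qb →ₐ[ℚ] ℂ := (algebraMap Qb ℂ).toRatAlgHom
  have h4 : (ℚ⟮b⟯ ⊓ ℚ⟮ζ⟯).map ν =
      IntermediateField.adjoin ℚ {(b : ℂ)} ⊓
        IntermediateField.adjoin ℚ {Complex.exp (2 * Real.pi * Complex.I / N)} := by
    rw [IntermediateField.map_inf, IntermediateField.adjoin_map, IntermediateField.adjoin_map,
      Set.image_singleton, Set.image_singleton]
    congr 1
    have h5 : IsPrimitiveRoot (ζ : ℂ) N :=
      hζ.map_of_injective (f := ν) Subtype.val_injective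
    have h6 : IsPrimitiveRoot (Complex.exp (2 * Real.pi * Complex.I / N)) N :=
      Complex.isPrimitiveRoot_exp N hN.ne'
    apply le_antisymm
    · rw [IntermediateField.adjoin_simple_le_iff]
      obtain ⟨i, _, hi⟩ := h6.eq_pow_of_pow_eq_one h5.pow_eq_one
      change (ζ : ℂ) ∈ _
      rw [← hi]
      exact pow_mem (IntermediateField.mem_adjoin_simple_self ℚ _) i
    · rw [IntermediateField.adjoin_simple_le_iff]
      obtain ⟨i, _, hi⟩ := h5.eq_pow_of_pow_eq_one h6.pow_eq_one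
      rw [← hi]
      exact pow_mem (IntermediateField.mem_adjoin_simple_self ℚ _) i
  rw [← h4]
  exact ((ℚ⟮b⟯ ⊓ ℚ⟮ζ⟯).equivMap ν).toLinearEquiv.finrank_eq

theorem commonDegree_le {N : ℕ} {β : ℂ} (hβ : IsAlgebraic ℚ β) :
    commonDegree N β ≤ (minpoly ℚ β).natDegree := by
  rw [← IntermediateField.adjoin.finrank hβ.isIntegral, commonDegree]
  have := IntermediateField.adjoin.finiteDimensional hβ.isIntegral
  exact Submodule.finrank_mono (s := (ℚ⟮β⟯ ⊓ _ : IntermediateField ℚ ℂ).toSubmodule)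
    (t := ℚ⟮β⟯.toSubmodule) (fun x hx => hx.1)

end Pool.Agent.U231.FF
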