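import Pool.Agent.U231.FF.Core
import Pool.Agent.U231.HF.Ari
import Pool.Agent.N876.FL.Geo3

/-!
# No resonances between numbers of Fermat type and algebraic numbers of small degree
-/

set_option autoImplicit false
set_option linter.unusedSectionVars false

namespace Pool.Agent.U231.FF

open Finset Pool.Agent.Y145.DI Pool.Agent.N214.HB Pool.Agent.H916R2 Pool.Agent.U231.FT
  Pool.Agent.N876.FL Pool.Agent.U231.HF

section

variable {κ : Type} [Field κ] [Fintype κ] {p : ℕ} [Fact p.Prime] [CharP κ p]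

theorem fermat_alg {N s : ℕ} {α : ℂ} (h : IsFermatNumber κ p N s α) : IsAlgebraic ℚ α := by
  obtain ⟨θ, ψ, a, e, i, j, -, -, -, -, -, he, heq⟩ := h
  have h1 : IsAlgebraic ℚ ((a.map fun x => gaussSum (θ ^ x.val) ψ).prod) := by
    rw [← coe_gam]
    exact mem_algebraicClosure_iff.1 (gam θ ψ a).2
  have hq : (Fintype.card κ : ℂ) ≠ 0 := by exact_mod_cast Fintype.card_ne_zero
  have hqa : IsAlgebraic ℚ (Fintype.card κ : ℂ) := isAlgebraic_natCast _
  have h2 : IsAlgebraic ℚ (α * (Fintype.card κ : ℂ) ^ i) :=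
    IsAlgebraic.of_pow he (heq ▸ ((hqa.pow j).mul h1).pow e)
  have h3 : α = (α * (Fintype.card κ : ℂ) ^ i) * ((Fintype.card κ : ℂ) ^ i)⁻¹ := by
    rw [mul_assoc, mul_inv_cancel₀ (pow_ne_zero _ hq), mul_one]
  rw [h3]
  exact h2.mul (hqa.pow i).inv

theorem real_aux {ι : Type} [Fintype ι] {x y : ι → ℝ} {i' j' : ι → ℕ} {Q z : ℝ} {e w : ℕ}
    (hQ0 : Q ≠ 0) (h1 : ∀ i, x i * Q ^ i' i = Q ^ j' i * y i)
    (h2 : (∏ i, x i) * Q ^ e * z = Q ^ w) :
    (∏ i, y i) * z = Q ^ w * (∏ i, Q ^ i' i) / ((∏ i, Q ^ j' i) * Q ^ e) := by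
  rw [eq_div_iff (mul_ne_zero (prod_ne_zero_iff.2 fun i _ => pow_ne_zero _ hQ0)
    (pow_ne_zero _ hQ0)), ← h2]
  have h3 : (∏ i, x i) * ∏ i, Q ^ i' i = (∏ i, Q ^ j' i) * ∏ i, y i := by
    rw [← prod_mul_distrib, ← prod_mul_distrib]
    exact prod_congr rfl fun i _ => h1 i
  calc (∏ i, y i) * z * ((∏ i, Q ^ j' i) * Q ^ e)
      = ((∏ i, Q ^ j' i) * ∏ i, y i) * z * Q ^ e := by ring
    _ = ((∏ i, x i) * ∏ i, Q ^ i' i) * z * Q ^ e := by rw [h3]
    _ = (∏ i, x i) * Q ^ e * z * ∏ i, Q ^ i' i := by ring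

/-- **No relations.** -/
theorem no_relation {ι : Type} [Fintype ι] [DecidableEq ι] [Nonempty ι] {N s : ι → ℕ}
    (hprime : ∀ i, (N i).Prime) (hne : Function.Injective N) {α : ι → ℂ}
    (hα : ∀ i, IsFermatNumber κ p (N i) (s i) (α i)) {β : ℂ} (hβ : IsAlgebraic ℚ β)
    (hlarge : ∀ i, ∃ m : ℕ, 0 < m ∧
      IsSmallDegree (N i) (s i * orderOf (p : ZMod (N i))) (commonDegree (N i) (β ^ m)))
    {e m w : ℕ} (hm : 0 < m) :
    ((∏ i, α i) * (Fintype.card κ : ℂ) ^ e * β) ^ m ≠ (Fintype.card κ : ℂ) ^ (m * w) := by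
  intro heq
  have hαalg : ∀ i, IsAlgebraic ℚ (α i) := fun i => fermat_alg (hα i)
  choose θ ψ a e' i' j' hθ hψ ha0 hacard hasymm he' hrel using hα
  have hNe : ∀ i, NeZero (N i) := fun i => ⟨(hprime i).pos.ne'⟩
  obtain ⟨F, hpr, hcard⟩ := FiniteField.card κ p
  obtain ⟨g, hg⟩ := IsCyclic.exists_generator (α := κˣ)
  let A : ι → Qb := fun i => ⟨α i, mem_algebraicClosure_iff.2 (hαalg i)⟩
  let b : Qb := ⟨β, mem_algebraicClosure_iff.2 hβ⟩
  have hinj : Function.Injective (algebraMap Qb ℂ) := (algebraMap Qb ℂ).injective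
  have hA : ∀ i, (A i * (Fintype.card κ : Qb) ^ i' i) ^ e' i =
      ((Fintype.card κ : Qb) ^ j' i * gam (θ i) (ψ i) (a i)) ^ e' i := by
    intro i
    apply hinj
    rw [map_pow, map_mul, map_pow, map_natCast, map_pow, map_mul, map_pow, map_natCast]
    have h1 : algebraMap Qb ℂ (gam (θ i) (ψ i) (a i)) = _ := coe_gam (θ i) (ψ i) (a i)
    rw [h1]
    exact hrel i
  have hB : ((∏ i, A i) * (Fintype.card κ : Qb) ^ e * b) ^ m = (Fintype.card κ : Qb) ^ (m * w) := by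
    apply hinj
    rw [map_pow, map_mul, map_mul, map_pow, map_natCast, map_pow, map_prod, map_natCast]
    exact heq
  have hR : ∀ σ : Qb →+* PadicAlgCl p, ∃ C : ℝ, C ≠ 0 ∧ ∀ τ : Qb ≃ₐ[ℚ] Qb,
      (∏ i, ‖σ (τ (gam (θ i) (ψ i) (a i)))‖) * ‖σ (τ b)‖ = C := by
    intro σ
    set Q : ℝ := ‖((Fintype.card κ : ℕ) : PadicAlgCl p)‖ with hQ
    have hQ0 : Q ≠ 0 := by
      rw [hQ, norm_ne_zero_iff]
      exact_mod_cast Fintype.card_ne_zero
    have hQ1 : 0 ≤ Q := norm_nonneg _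
    refine ⟨Q ^ w * (∏ i, Q ^ i' i) / ((∏ i, Q ^ j' i) * Q ^ e), ?_, ?_⟩
    · refine div_ne_zero (mul_ne_zero (pow_ne_zero _ hQ0) ?_)
        (mul_ne_zero ?_ (pow_ne_zero _ hQ0))
      · exact prod_ne_zero_iff.2 fun i _ => pow_ne_zero _ hQ0
      · exact prod_ne_zero_iff.2 fun i _ => pow_ne_zero _ hQ0
    · intro τ
      have h1 : ∀ i, ‖σ (τ (A i))‖ * Q ^ i' i =
          Q ^ j' i * ‖σ (τ (gam (θ i) (ψ i) (a i)))‖ := by
        intro i
        refine (pow_left_inj₀ (mul_nonneg (norm_nonneg _) (pow_nonneg hQ1 _))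
          (mul_nonneg (pow_nonneg hQ1 _) (norm_nonneg _)) (he' i).ne').1 ?_
        have h2 := congrArg (fun x => ‖σ (τ x)‖) (hA i)
        simpa only [map_pow, map_mul, map_natCast, norm_pow, norm_mul] using h2
      have h2 : (∏ i, ‖σ (τ (A i))‖) * Q ^ e * ‖σ (τ b)‖ = Q ^ w := by
        refine (pow_left_inj₀ (mul_nonneg (mul_nonneg (prod_nonneg fun i _ => norm_nonneg _)
          (pow_nonneg hQ1 _)) (norm_nonneg _)) (pow_nonneg hQ1 _) hm.ne').1 ?_
        have h3 := congrArg (fun x => ‖σ (τ x)‖) hB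
        rw [← pow_mul, mul_comm w m]
        simpa only [map_pow, map_mul, map_prod, map_natCast, norm_pow, norm_mul, norm_prod] using h3
      exact real_aux hQ0 h1 h2
  obtain ⟨i₀⟩ := (inferInstance : Nonempty ι)
  obtain ⟨m', hm', hlt⟩ := hlarge i₀
  have hp : Fact (N i₀).Prime := ⟨hprime i₀⟩
  have hζ := root_chi (hθ i₀) hg
  have hcop : p.Coprime (N i₀) := by
    rw [Nat.Prime.coprime_iff_not_dvd (Fact.out : p.Prime)]
    intro h1
    have hQ1 : 1 < Fintype.card κ := Fintype.one_lt_card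
    have h2 : p ∣ Fintype.card κ - 1 :=
      h1.trans (by rw [← hθ i₀]; exact (θ i₀).orderOf_dvd_card_sub_one)
    have h3 : p ∣ Fintype.card κ := by
      rw [hcard]
      exact dvd_pow_self p F.pos.ne'
    have h10 : p ∣ 1 := (Nat.dvd_sub_iff_right hQ1.le h3).1 h2
    exact (Fact.out : p.Prime).one_lt.ne' (Nat.dvd_one.1 h10)
  obtain ⟨n, hn⟩ : orderOf (p : ZMod (N i₀)) ∣ (F : ℕ) := by
    apply orderOf_dvd_of_pow_eq_one
    have h1 : ((Fintype.card κ - 1 : ℕ) : ZMod (N i₀)) = 0 :=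
      (ZMod.natCast_eq_zero_iff _ _).2 (by rw [← hθ i₀]; exact (θ i₀).orderOf_dvd_card_sub_one)
    rw [Nat.cast_sub Fintype.card_pos, hcard, sub_eq_zero] at h1
    push_cast at h1
    exact h1
  have hn0 : n ≠ 0 := by
    rintro rfl
    rw [mul_zero] at hn
    exact F.pos.ne' hn
  apply hasymm i₀
  refine symm_of_subgroup (s := s i₀ * orderOf (p : ZMod (N i₀))) ?_
    ((IntermediateField.adjoin ℚ {b ^ m'}).fixingSubgroup.map
      (hζ.autToPow ℚ : (Qb ≃ₐ[ℚ] Qb) →* (ZMod (N i₀))ˣ)) ?_ ?_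
  · rw [card_frobeniusSum, mul_comm]
    exact Nat.mul_le_mul_right _ (hacard i₀)
  · rintro h ⟨τ₀, hτ₀, rfl⟩ x
    have h1 : τ₀ (b ^ m') = b ^ m' := (IntermediateField.mem_fixingSubgroup_iff _ _).1 hτ₀ _
      (IntermediateField.mem_adjoin_simple_self ℚ _)
    have h2 := core_wt hcard hprime hne hθ hg hψ ha0 hR hm' h1 i₀ x
    have h3 := wt_saw (n := n) hcop (a i₀) (ha0 i₀) (x * hζ.autToPow ℚ τ₀)
    have h4 := wt_saw (n := n) hcop (a i₀) (ha0 i₀) x
    rw [mul_comm n, ← hn] at h3 h4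
    rw [h2, h4] at h3
    have h5 : (n : ℤ) ≠ 0 := by exact_mod_cast hn0
    have h6 := add_right_cancel (mul_left_cancel₀ h5 h3)
    rw [Units.val_mul] at h6
    exact h6.symm
  · rw [index_eq hζ]
    exact hlt

/-- the conditions for the other factor -/
def BaseOK (p : ℕ) {K ι : Type} [Field K] (σ₀ : K →+* ℂ) (N s : ι → ℕ) (SZ : Set K) : Prop :=
  ∀ β ∈ SZ, IsAlgebraic ℚ (σ₀ β) ∧ ∀ i, ∃ m : ℕ, 0 < m ∧
    IsSmallDegree (N i) (s i * orderOf (p : ZMod (N i))) (commonDegree (N i) ((σ₀ β) ^ m))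

theorem nores {K : Type} [Field K] (σ₀ : K →+* ℂ) {ι : Type} {N s : ι → ℕ}
    (hprime : ∀ i, (N i).Prime) (hne : Function.Injective N) {S : ι → Set K}
    (hS : ∀ i, ∀ α ∈ S i, IsFermatNumber κ p (N i) (s i) (σ₀ α)) {SZ : Set K}
    (hZ : BaseOK p σ₀ N s SZ) : NoResF (Fintype.card κ : K) S SZ := by
  classical
  intro I hI α hα β hβ e m w hm heq
  have hne' : Nonempty I := hI.to_subtype
  obtain ⟨h1, h2⟩ := hZ β hβ
  refine no_relation (κ := κ) (p := p) (ι := I) (N := fun i => N i) (s := fun i => s i)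
    (fun i => hprime i) (fun i j h => Subtype.ext (hne h)) (α := fun i => σ₀ (α i))
    (fun i => hS i _ (hα i i.2)) h1 (fun i => h2 i) hm (e := e) (w := w) ?_
  have h3 := congrArg σ₀ heq
  simp only [map_mul, map_pow, map_prod, map_natCast] at h3
  rw [← h3, ← Finset.prod_coe_sort I fun i => σ₀ (α i)]

theorem commonDegree_one (N : ℕ) : commonDegree N 1 ≤ 1 := by
  refine (commonDegree_le isAlgebraic_one).trans ?_
  rw [minpoly.one]
  exact (Polynomial.natDegree_X_sub_C _).le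

theorem baseOK_one {K : Type} [Field K] (σ₀ : K →+* ℂ) {ι : Type} {N s : ι → ℕ}
    (hprime : ∀ i, (N i).Prime) : BaseOK p σ₀ N s {1} := by
  rintro β rfl
  refine ⟨by rw [map_one]; exact isAlgebraic_one, fun i => ⟨1, one_pos, ?_⟩⟩
  rw [map_one, one_pow]
  rcases (hprime i).eq_two_or_odd' with h | h
  · exact Or.inl h
  · refine Or.inr (Or.inl ?_)
    have h1 := commonDegree_one (N i)
    obtain ⟨m, hm⟩ := h
    have h3 : N i - 1 = 2 * m := by omega
    interval_cases h2 : commonDegree (N i) 1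
    · rw [Nat.div_zero]
      exact Even.zero
    · rw [Nat.div_one, h3]
      exact even_two_mul m

end

end Pool.Agent.U231.FF
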