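import Pool.Agent.U231.FF.Defs
import Pool.Agent.U231.FF.Res

/-!
# Varieties of Fermat type over finite fields satisfy the hypotheses of `N876.FL.Geo3`
-/

set_option autoImplicit false

open CategoryTheory AlgebraicGeometry

universe u

namespace Pool.Agent.U231.FF

open Pool.Agent.H914 Pool.Agent.H914.VarClass Pool.Agent.H914.VarClass.Obj
  Pool.Agent.H914.WeilCohomology Pool.Agent.H281R3.HT Pool.Agent.TH125.Gal

variable {k : Type u} [Field k] {𝒱 : VarClass k} {ops : CycleOps 𝒱}
  {W : WeilCohomology.{u, 0} ops} {Γ : Type} [Group Γ]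

theorem productOf_eq {ι : Type} (X : ι → GVar W Γ) (D : ∀ i, (X i).X.Cycles)
    (Z : Polarized 𝒱) (L : List ι) :
    productOf X D Z L = Pool.Agent.N876.FL.tow X D Z L := by
  induction L with
  | nil => rfl
  | cons i L ih => rw [productOf, Pool.Agent.N876.FL.tow, ih]

theorem exists_sys (p : ℕ) [Fact p.Prime] (κ : Type) [Field κ] [Fintype κ] [CharP κ p] {ι : Type}
    (N s : ι → ℕ) {χ : Γ →* W.Kˣ} {G : Set (GVar W Γ)} {X : ι → GVar W Γ} {Z : GVar W Γ} {σ : Γ}
    {τ : W.K →+* ℂ} (h : IsFermatSystem κ p N s χ G X Z σ τ) :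
    ∃ S : ι → Set W.K, Pool.Agent.N876.FL.Sys χ G X Z σ S := by
  obtain ⟨hG, hmem, hmemZ, hχ, hprime, hne, hferm, hone, hbase⟩ := h
  choose T hT hTtop hTS using hferm
  have hinj : Function.Injective N := by
    intro i i' h
    by_contra hcon
    exact hne i i' hcon h
  have hres : ∀ SZ : Set W.K, BaseOK p τ N s SZ →
      Pool.Agent.N876.FL.NoResF (Fintype.card κ : W.K)
        (fun i => {α | Module.End.HasEigenvalue ((frobenius (X i) σ).restrict (hT i)) α}) SZ :=
    fun SZ hSZ => nores (κ := κ) (p := p) τ hprime hinj (fun i α hα => hTS i α hα) hSZ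
  refine ⟨fun i => {α | Module.End.HasEigenvalue ((frobenius (X i) σ).restrict (hT i)) α},
    { gal := hG, mem := hmem, memZ := hmemZ,
      cv := fun i => ⟨T i, hT i, hTtop i, fun α hα => hα⟩
      res := ?_
      res1 := ?_
      one := hone }⟩
  · rw [hχ]
    exact hres _ fun β hβ => hbase _ ⟨β, hβ, rfl⟩
  · rw [hχ]
    exact hres _ (baseOK_one τ hprime)

end Pool.Agent.U231.FF
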