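import Pool.Agent.N214.HB.Gauss
import Pool.Agent.U231.FF.Gal
import Pool.Agent.U231.FT.Ari

/-!
# The norms of the conjugates of Gauss sums
-/

set_option autoImplicit false
set_option linter.unusedSectionVars false

namespace Pool.Agent.U231.FF

open Finset Pool.Agent.Y145.DI Pool.Agent.N214.HB

/-- the weight -/
def wt (p F : ℕ) {N : ℕ} (s : Multiset (ZMod N)) (x : ZMod N) : ℕ :=
  (s.map fun a => expo p N F (x * a).val).sum

section

variable {κ : Type} [Field κ] [Fintype κ] {p : ℕ} [Fact p.Prime] [CharP κ p]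
  {N : ℕ} [NeZero N]

theorem root_chi {θ : MulChar κ ℂ} (hθ : orderOf θ = N) {g : κˣ}
    (hg : ∀ x : κˣ, x ∈ Subgroup.zpowers g) : IsPrimitiveRoot (liftChi θ (g : κ)) N := by
  refine IsPrimitiveRoot.mk_of_lt _ (Nat.pos_of_ne_zero (NeZero.ne N)) ?_ ?_
  · have h2 : θ ^ N = 1 := by rw [← hθ, pow_orderOf_eq_one]
    apply Subtype.ext
    have h3 : (θ ^ N) (g : κ) = 1 := by rw [h2, MulChar.one_apply_coe]
    rw [MulChar.pow_apply_coe] at h3
    exact h3
  · intro l hl0 hl h2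
    have h3 : θ ^ l = 1 := by
      apply mulChar_ext_gen hg
      rw [MulChar.pow_apply_coe, MulChar.one_apply_coe]
      exact congrArg Subtype.val h2
    exact absurd (orderOf_le_of_pow_eq_one hl0 h3) (by omega)

theorem norm_of_value (w : MulChar κ (PadicAlgCl p)) (ψp : AddChar κ (PadicAlgCl p))
    (hψp : ψp.IsPrimitive) (hψc : ∀ y, ψp (y ^ p) = ψp y)
    (hw : ‖((p : ℕ) : PadicAlgCl p)‖ ≤ ‖gaussSum w⁻¹ ψp‖ ^ (p - 1))
    (ho : orderOf w = Fintype.card κ - 1) {F : ℕ} (hcard : Fintype.card κ = p ^ F) (hF : 0 < F)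
    (hN : N ∣ Fintype.card κ - 1) {g : κˣ} (hg : ∀ x : κˣ, x ∈ Subgroup.zpowers g)
    (θ : MulChar κ ℂ) (ψ : AddChar κ ℂ) (hψ : ψ ≠ 1)
    (σ : Qb →+* PadicAlgCl p) (u : (ZMod N)ˣ)
    (hσ : σ (liftChi θ (g : κ)) =
      ((w ^ ((Fintype.card κ - 1) / N)) (g : κ))⁻¹ ^ (u : ZMod N).val)
    {a : ZMod N} (ha : a ≠ 0) :
    ‖σ (gaussSum (liftChi (θ ^ a.val)) (liftPsi ψ))‖ ^ N =
      ‖((p : ℕ) : PadicAlgCl p)‖ ^ expo p N F ((u : ZMod N) * a).val := by
  classical
  have hQ1 : 1 < Fintype.card κ := Fintype.one_lt_card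
  set T : MulChar κ (PadicAlgCl p) := w ^ ((Fintype.card κ - 1) / N) with hT
  have hTo : orderOf T = N := by
    have hd : (Fintype.card κ - 1) / N ≠ 0 := by
      have := Nat.div_pos (Nat.le_of_dvd (by omega) hN) (Nat.pos_of_ne_zero (NeZero.ne N))
      omega
    rw [hT, orderOf_pow_of_dvd hd (by rw [ho]; exact Nat.div_dvd_of_dvd hN), ho,
      Nat.div_div_self hN (by omega)]
  set ψs : AddChar κ (PadicAlgCl p) := (σ : _ →* PadicAlgCl p).compAddChar (liftPsi ψ) with hψs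
  obtain ⟨c0, hc0⟩ := exists_shift (ψ' := ψs) hψp
  have hc00 : c0 ≠ 0 := by
    rintro rfl
    rw [AddChar.mulShift_zero] at hc0
    apply hψ
    ext x
    have h1 : σ (liftPsi ψ x) = 1 := by
      have := congrArg (fun f : AddChar κ (PadicAlgCl p) => f x) hc0
      simpa [hψs] using this
    have h2 : liftPsi ψ x = 1 := σ.injective (h1.trans (map_one σ).symm)
    exact congrArg Subtype.val h2
  have hchi : (liftChi θ).ringHomComp σ = (T ^ (u : ZMod N).val)⁻¹ := by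
    apply mulChar_ext_gen hg
    rw [MulChar.ringHomComp_apply, hσ, MulChar.inv_apply_eq_inv', inv_pow]
    congr 1
    exact (MulChar.pow_apply_coe T _ g).symm
  have hgs : σ (gaussSum (liftChi (θ ^ a.val)) (liftPsi ψ))
      = gaussSum ((T ^ ((u : ZMod N) * a).val)⁻¹) ψs := by
    rw [map_gauss, liftChi_pow]
    congr 1
    rw [← MulChar.ringHomComp_pow, hchi, inv_pow, ← pow_mul]
    congr 1
    rw [pow_eq_pow_iff_modEq, hTo]
    rw [← ZMod.natCast_eq_natCast_iff]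
    push_cast
    simp only [ZMod.natCast_zmod_val]
  rw [hgs, hc0, norm_gauss_shift _ _ hc00]
  have ha0 : (u : ZMod N) * a ≠ 0 := by
    intro h5
    exact ha ((Units.mul_right_eq_zero u).1 h5)
  exact norm_gauss_eq w ψp hψp hψc hw ho hcard hN hF _
    (Nat.pos_of_ne_zero fun h5 => ha0 ((ZMod.val_eq_zero _).1 h5)) (ZMod.val_lt _)

theorem exists_type {F : ℕ} (hcard : Fintype.card κ = p ^ F) (σ : Qb →+* PadicAlgCl p)
    {θ : MulChar κ ℂ} (hθ : orderOf θ = N) {g : κˣ} (hg : ∀ x : κˣ, x ∈ Subgroup.zpowers g)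
    {ψ : AddChar κ ℂ} (hψ : ψ ≠ 1) :
    ∃ v : (ZMod N)ˣ, ∀ (τ : Qb ≃ₐ[ℚ] Qb) (a : ZMod N), a ≠ 0 →
      ‖σ (τ (gaussSum (liftChi (θ ^ a.val)) (liftPsi ψ)))‖ ^ N =
        ‖((p : ℕ) : PadicAlgCl p)‖ ^
          expo p N F (((v * (root_chi hθ hg).autToPow ℚ τ : (ZMod N)ˣ) : ZMod N) * a).val := by
  classical
  obtain ⟨w, ψp, hψp, hψc, hw, ho⟩ := exists_wp (p := p) κ
  have hm : 0 < N := Nat.pos_of_ne_zero (NeZero.ne N)
  have hQ1 : 1 < Fintype.card κ := Fintype.one_lt_card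
  have hN : N ∣ Fintype.card κ - 1 := by rw [← hθ]; exact θ.orderOf_dvd_card_sub_one
  have hF : 0 < F := by
    rcases Nat.eq_zero_or_pos F with h | h
    · rw [h, pow_zero] at hcard
      omega
    · exact h
  set T : MulChar κ (PadicAlgCl p) := w ^ ((Fintype.card κ - 1) / N) with hT
  have hTo : orderOf T = N := by
    have hd : (Fintype.card κ - 1) / N ≠ 0 := by
      have := Nat.div_pos (Nat.le_of_dvd (by omega) hN) hm
      omega
    rw [hT, orderOf_pow_of_dvd hd (by rw [ho]; exact Nat.div_dvd_of_dvd hN), ho,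
      Nat.div_div_self hN (by omega)]
  have hTm : T ^ N = 1 := by rw [← hTo, pow_orderOf_eq_one]
  have hTg : IsPrimitiveRoot (T (g : κ)) N := by
    refine IsPrimitiveRoot.mk_of_lt _ hm ?_ ?_
    · rw [← MulChar.pow_apply_coe, hTm, MulChar.one_apply_coe]
    · intro l hl0 hl h2
      have h3 : T ^ l = 1 := by
        apply mulChar_ext_gen hg
        rw [MulChar.pow_apply_coe, h2, MulChar.one_apply_coe]
      exact absurd (orderOf_le_of_pow_eq_one hl0 h3) (by omega)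
  have hζ := root_chi hθ hg
  have h1 : IsPrimitiveRoot (σ (liftChi θ (g : κ))) N := hζ.map_of_injective σ.injective
  obtain ⟨i, hi, hico, hiv⟩ := (hTg.inv.isPrimitiveRoot_iff).1 h1
  refine ⟨ZMod.unitOfCoprime i hico, fun τ a ha => ?_⟩
  refine norm_of_value w ψp hψp hψc hw ho hcard hF hN hg θ ψ hψ
    (σ.comp (τ : Qb →+* Qb)) _ ?_ ha
  have h2 := hζ.autToPow_spec ℚ τ
  change σ (τ (liftChi θ (g : κ))) = _
  rw [← h2, map_pow, ← hiv, ← pow_mul]
  have h3 : ((T (g : κ))⁻¹) ^ N = 1 := hTg.inv.pow_eq_one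
  have h4 : ∀ n : ℕ, ((T (g : κ))⁻¹) ^ n = ((T (g : κ))⁻¹) ^ (n % N) := by
    intro n
    conv_lhs => rw [← Nat.div_add_mod n N]
    rw [pow_add, pow_mul, h3, one_pow, one_mul]
  rw [h4, h4 ((_ : (ZMod N)ˣ) : ZMod N).val]
  congr 1
  change _ ≡ _ [MOD N]
  rw [← ZMod.natCast_eq_natCast_iff]
  push_cast
  rw [ZMod.natCast_zmod_val, ZMod.natCast_zmod_val, ZMod.coe_unitOfCoprime]

theorem exists_type_prod {F : ℕ} (hcard : Fintype.card κ = p ^ F) (σ : Qb →+* PadicAlgCl p)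
    {θ : MulChar κ ℂ} (hθ : orderOf θ = N) {g : κˣ} (hg : ∀ x : κˣ, x ∈ Subgroup.zpowers g)
    {ψ : AddChar κ ℂ} (hψ : ψ ≠ 1) (s : Multiset (ZMod N)) (hs : (0 : ZMod N) ∉ s) :
    ∃ v : (ZMod N)ˣ, ∀ τ : Qb ≃ₐ[ℚ] Qb,
      ‖σ (τ ((s.map fun a => gaussSum (liftChi (θ ^ a.val)) (liftPsi ψ)).prod))‖ ^ N =
        ‖((p : ℕ) : PadicAlgCl p)‖ ^
          wt p F s ((v * (root_chi hθ hg).autToPow ℚ τ : (ZMod N)ˣ) : ZMod N) := by
  obtain ⟨v, hv⟩ := exists_type hcard σ hθ hg hψ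
  refine ⟨v, fun τ => ?_⟩
  induction s using Multiset.induction_on with
  | empty => simp [wt]
  | cons a s ih =>
    rw [Multiset.mem_cons, not_or] at hs
    rw [Multiset.map_cons, Multiset.prod_cons, map_mul, map_mul, norm_mul, mul_pow, ih hs.2,
      hv τ a (Ne.symm hs.1), ← pow_add, wt, wt, Multiset.map_cons, Multiset.sum_cons]

theorem expo_add_neg {F : ℕ} (hcop : p.Coprime N) {b : ZMod N} (hb : b ≠ 0) :
    expo p N F b.val + expo p N F (-b).val = F * N := by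
  unfold expo
  rw [← sum_add_distrib, sum_congr rfl fun s _ => ?_, sum_const, card_range, smul_eq_mul]
  have h1 : ∀ c : ZMod N, (c.val * p ^ s) % N = (c * (p : ZMod N) ^ s).val := by
    intro c
    rw [← ZMod.val_natCast]
    congr 1
    push_cast
    rw [ZMod.natCast_zmod_val]
  rw [h1, h1, neg_mul]
  have h2 : b * (p : ZMod N) ^ s ≠ 0 := by
    intro h3
    have h4 : IsUnit ((p : ZMod N) ^ s) := ((ZMod.isUnit_iff_coprime p N).2 hcop).pow s
    exact hb (h4.mul_left_eq_zero.1 h3)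
  have h3 := ZMod.neg_val (b * (p : ZMod N) ^ s)
  rw [if_neg h2] at h3
  rw [h3]
  have := ZMod.val_lt (b * (p : ZMod N) ^ s)
  omega

theorem wt_add_neg {F : ℕ} (hcop : p.Coprime N) (s : Multiset (ZMod N)) (hs : (0 : ZMod N) ∉ s)
    (x : (ZMod N)ˣ) : wt p F s (x : ZMod N) + wt p F s (-(x : ZMod N)) =
      Multiset.card s * (F * N) := by
  induction s using Multiset.induction_on with
  | empty => simp [wt]
  | cons a s ih =>
    rw [Multiset.mem_cons, not_or] at hs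
    have h1 := ih hs.2
    have h2 : (x : ZMod N) * a ≠ 0 := by
      intro h5
      exact hs.1 ((Units.mul_right_eq_zero x).1 h5).symm
    have h3 := expo_add_neg (F := F) hcop h2
    simp only [wt, Multiset.map_cons, Multiset.sum_cons, Multiset.card_cons, neg_mul] at h1 ⊢
    rw [add_mul, one_mul, ← h1, ← h3]
    ring

end

end Pool.Agent.U231.FF
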